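import Pool.Agent.MP_542436_nt.Abc.CTop
import Pool.Agent.MP_542436_nt.H13.RedGlue
import Pool.Agent.MP_542436_nt.H50.A1
import Pool.Agent.MP_542436_nt.H17.Setup
import Pool.Agent.MP_542436_nt.H61.HS
import Pool.Agent.MP_542436_nt.H61.BS
import Pool.Agent.MP_542436_nt.H78.Moment
import Pool.Agent.MP_542436_nt.H72.Det

set_option autoImplicit false

namespace Pool.Agent.Results.MP_542436_nt.AbcExceptional

open Pool.Agent.MP_542436_nt

/-- The number of coprime triples `a + b = c ≤ X` whose radical is at most `c` is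
`O(X ^ (11 / 20 + ε))`. -/
theorem result : ∀ ε : ℝ, 0 < ε → ∃ K : ℝ, ∀ X : ℕ, 1 ≤ X →
    (((Finset.Icc 1 X ×ˢ Finset.Icc 1 X ×ˢ Finset.Icc 1 X).filter
      (fun t : ℕ × ℕ × ℕ => t.1 + t.2.1 = t.2.2 ∧ Nat.Coprime t.1 t.2.1 ∧
        ∏ p ∈ (t.1 * t.2.1 * t.2.2).primeFactors, p ≤ t.2.2)).card : ℝ) ≤
      K * (X : ℝ) ^ ((11 : ℝ) / 20 + ε) := by
  have h := H13.glue _ (by positivity) H72.det H13.red (H61.hS H50.root) (H61.bS H50.root)
    (H78.mS H50.root) (H17.setup H50.factor H50.tail) Abc.Clp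
  simpa only [Abc.MainStmt, Abc.Tr, Abc.rd, Nat.cast_ofNat] using h

end Pool.Agent.Results.MP_542436_nt.AbcExceptional
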