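import Pool.Agent.MP_542436_nt.Sq.Free
import Pool.Agent.MP_542436_nt.Sq.All

set_option autoImplicit false

namespace Pool.Agent.Results.MP_542436_nt.SquarefreeSeptic

open Pool.Agent.MP_542436_nt

/-- Squarefree values of binary forms whose irreducible factors have degree at most 7, with a power
saving error term. -/
theorem result (n : ℕ) (F : Fin (n + 1) → MvPolynomial (Fin 2) ℤ) (d : Fin (n + 1) → ℕ)
    (hirr : ∀ i, Irreducible (F i)) (hne : ∀ i j, i ≠ j → ¬ Associated (F i) (F j))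
    (hhom : ∀ i, (F i).IsHomogeneous (d i)) (hd : ∀ i, d i ≤ 7) (ρ : ℕ → ℕ)
    (hρ : ∀ m, ρ m = Nat.card {v : Fin 2 → ZMod m // MvPolynomial.aeval v (∏ i, F i) = 0}) :
    ∃ c : ℝ, HasProd (fun p : Nat.Primes => 1 - (ρ (p ^ 2) : ℝ) / (p : ℝ) ^ 4) c ∧
      ((∀ p : ℕ, p.Prime → ρ (p ^ 2) < p ^ 4) → 0 < c) ∧
      ∃ δ K : ℝ, 0 < δ ∧ ∀ B : ℕ, 1 ≤ B → ∀ x0 x1 y0 y1 : ℤ, -(B : ℤ) ≤ x0 → x0 ≤ x1 → x1 ≤ B →
        -(B : ℤ) ≤ y0 → y0 ≤ y1 → y1 ≤ B →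
        |(Set.ncard {t : ℤ × ℤ | x0 < t.1 ∧ t.1 ≤ x1 ∧ y0 < t.2 ∧ t.2 ≤ y1 ∧
            Squarefree (MvPolynomial.eval ![t.1, t.2] (∏ i, F i))} : ℝ) -
          c * (((x1 : ℝ) - x0) * ((y1 : ℝ) - y0))| ≤ K * (B : ℝ) ^ (2 - δ) := by
  obtain rfl : ρ = Sq.rho (∏ i, F i) := funext hρ
  obtain ⟨c, h1, h2, δ, K, hδ, h⟩ := Sq.free Sq.all7 n F d hirr hne hhom hd
  refine ⟨c, h1, h2, δ, K, hδ, fun B hB x0 x1 y0 y1 a1 a2 a3 b1 b2 b3 => ?_⟩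
  convert h B hB x0 x1 y0 y1 a1 a2 a3 b1 b2 b3
  rw [← Set.ncard_coe_finset]
  congr 1
  ext t
  simp [and_assoc]

end Pool.Agent.Results.MP_542436_nt.SquarefreeSeptic
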