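import Pool.Agent.MP_542436_nt.SZ19.Main

/-! A power saving in the inequality of Szpiro for all elliptic curves over the rationals. -/

set_option autoImplicit false

open Pool.Agent.MP_542436_nt in
theorem Pool.Agent.Results.MP_542436_nt.SzpiroHalf.result :
  ∀ ε : ℝ, 0 < ε → ∃ C : ℝ, ∀ W : WeierstrassCurve ℤ, W.Δ ≠ 0 →
    (∀ (W' : WeierstrassCurve ℤ) (T : WeierstrassCurve.VariableChange ℚ),
      W'.map (Int.castRingHom ℚ) = T • W.map (Int.castRingHom ℚ) → |W.Δ| ≤ |W'.Δ|) →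
    Real.log ((max (|W.c₄| ^ 3) (W.c₆ ^ 2) : ℤ) : ℝ) ≤
      C * (∏ p ∈ W.Δ.natAbs.primeFactors, if Odd (padicValInt p W.Δ) then (p : ℝ)
        else if ¬ 3 ∣ padicValInt p W.Δ ∧ (p : ℤ) ^ padicValInt p W.Δ ∣ W.c₄ ^ 3 then (p : ℝ) ^ 2
        else 1) ^ (1 / 2 + ε) *
        (∏ p ∈ W.Δ.natAbs.primeFactors, (p : ℝ)) ^ ε := by
  intro ε hε
  obtain ⟨C, hC⟩ := SZ19.main ε hε
  refine ⟨C, fun W hΔ hmin => ?_⟩
  have h := hC W hΔ hmin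
  have c1 : ((SZ19.MM W.c₄ W.Δ : ℕ) : ℝ) =
      ∏ p ∈ W.Δ.natAbs.primeFactors, if Odd (padicValInt p W.Δ) then (p : ℝ)
        else if ¬ 3 ∣ padicValInt p W.Δ ∧ (p : ℤ) ^ padicValInt p W.Δ ∣ W.c₄ ^ 3 then (p : ℝ) ^ 2
        else 1 := by
    unfold SZ19.MM
    rw [Nat.cast_prod]
    refine Finset.prod_congr rfl fun p _ => ?_
    split_ifs
    · rfl
    · push_cast; rfl
    · exact Nat.cast_one
  have c2 : ((SZ.rd W.Δ.natAbs : ℕ) : ℝ) = ∏ p ∈ W.Δ.natAbs.primeFactors, (p : ℝ) := by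
    unfold SZ.rd
    rw [Nat.cast_prod]
  rw [← c1, ← c2, mul_assoc]
  exact h
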