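import Pool.Agent.MP_542436_nt.H40.All
import Pool.Agent.MP_542436_nt.H96N.All

/-! A subexponential form of the truncated inequality on the product of two lines. -/

set_option autoImplicit false

theorem Pool.Agent.Results.MP_542436_nt.VojtaSubexp.result :
  ∀ (K L : Type) [Field K] [NumberField K] [Field L] [NumberField L] [Algebra K L]
    (hK : (Fin 2 → K) → ℝ),
    (∀ v : Fin 2 → K, hK v =
      (∑ w : NumberField.InfinitePlace K, (w.mult : ℝ) * Real.log (max (w (v 0)) (w (v 1)))) +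
      ∑ᶠ p : IsDedekindDomain.HeightOneSpectrum (NumberField.RingOfIntegers K),
        Real.log (max (NumberField.FinitePlace.mk p (v 0)) (NumberField.FinitePlace.mk p (v 1)))) →
    ∀ (F : MvPolynomial (Fin 2 ⊕ Fin 2) K) (q r : ℕ),
    F.IsWeightedHomogeneous
      (Sum.elim (fun _ : Fin 2 => ((1, 0) : ℕ × ℕ)) (fun _ : Fin 2 => ((0, 1) : ℕ × ℕ))) (q, r) →
    (∃ σ : Fin 3 → Fin 2 → L, (∀ i j, i ≠ j → σ i 0 * σ j 1 ≠ σ i 1 * σ j 0) ∧
      ∀ (i : Fin 3) (t : Fin 2 → L), MvPolynomial.aeval (Sum.elim (σ i) t) F = 0) →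
    (r ≤ 2 ∨ ∃ (τ : Fin 3 → Fin 2 → MvPolynomial (Fin 2) L) (d : Fin 3 → ℕ),
      (∀ i k, (τ i k).IsHomogeneous (d i)) ∧ (∀ i j, i ≠ j → τ i 0 * τ j 1 ≠ τ i 1 * τ j 0) ∧
      ∀ (i : Fin 3) (s : Fin 2 → L),
        MvPolynomial.aeval (Sum.elim s fun k => MvPolynomial.eval s (τ i k)) F = 0) →
    ∃ (G : MvPolynomial (Fin 2 ⊕ Fin 2) K) (a b : ℕ), G ≠ 0 ∧
      G.IsWeightedHomogeneous
        (Sum.elim (fun _ : Fin 2 => ((1, 0) : ℕ × ℕ)) (fun _ : Fin 2 => ((0, 1) : ℕ × ℕ))) (a, b) ∧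
      ∀ ε : ℝ, 0 < ε → ∃ C : ℝ,
        ∀ P : Projectivization K (Fin 2 → K) × Projectivization K (Fin 2 → K),
          MvPolynomial.eval (Sum.elim P.1.rep P.2.rep) G ≠ 0 →
          MvPolynomial.eval (Sum.elim P.1.rep P.2.rep) F ≠ 0 →
          ((q : ℝ) - 2) * hK P.1.rep + ((r : ℝ) - 2) * hK P.2.rep ≤ C * Real.exp (ε *
            ∑ᶠ p : IsDedekindDomain.HeightOneSpectrum (NumberField.RingOfIntegers K),
              min (Real.log ((Ideal.absNorm p.asIdeal : ℕ) : ℝ))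
                (-Real.log (NumberField.FinitePlace.mk p
                    (MvPolynomial.eval (Sum.elim P.1.rep P.2.rep) F) /
                  (max (NumberField.FinitePlace.mk p (P.1.rep 0))
                      (NumberField.FinitePlace.mk p (P.1.rep 1)) ^ q *
                    max (NumberField.FinitePlace.mk p (P.2.rep 0))
                      (NumberField.FinitePlace.mk p (P.2.rep 1)) ^ r)))) := by
  intro K L _ _ _ _ _ hK hhK F q r hF hV hH
  have hh : ∀ v : Fin 2 → K, v ≠ 0 → hK v = Height.logHeight v := fun v hv => by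
    rw [hhK, (Pool.Agent.MP_542436_nt.H40.rowHT K v hv).2]
    rfl
  obtain ⟨G, a, b, hG0, hG1, hG2⟩ :=
    Pool.Agent.MP_542436_nt.H40.mainOf Pool.Agent.MP_542436_nt.H96N.allABCD K L F q r hF
    (hV.imp fun σ h => ⟨fun i j hij => sub_ne_zero.2 (h.1 i j hij), h.2⟩)
    (hH.imp id fun ⟨τ, d, h1, h2, h3⟩ =>
      ⟨τ, d, h1, fun i j hij => sub_ne_zero.2 (h2 i j hij), h3⟩)
  refine ⟨G, a, b, hG0, hG1, fun ε hε => ?_⟩
  obtain ⟨C, hC⟩ := hG2 ε hε
  refine ⟨C, fun P h1 h2 => ?_⟩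
  rw [hh _ P.1.rep_nonzero, hh _ P.2.rep_nonzero]
  exact hC _ _ P.1.rep_nonzero P.2.rep_nonzero h1 h2
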